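import Mathlib

/-!
# Symbolic powers of polymatroidal ideals need not be componentwise linear

Let `I` be the ideal of `K[x_e : e edge of K_4]` generated by the (squarefree) monomials of the 16
spanning trees of the complete graph `K_4`. It is a matroidal ideal, generated in degree `3`. The
elements of degree `4` of `I^(2)` are the linear combinations of the monomials of the three
Hamiltonian cycles of `K_4`, any two of which have only two edges in common. So the ideal generated
by them has no linear resolution (its first syzygies are quadratic), and `I^(2)` is not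
componentwise linear.
-/

set_option autoImplicit false

namespace Pool.Agent.Results.MP_d6f7e8_al.CompleteGraph

open Finset MvPolynomial

universe u

/-- `I` is polymatroidal: it is generated by the monomials `x^u`, `u ∈ B`, where `B` is the set of
bases of a discrete polymatroid, that is, `B` is nonempty, its elements have the same coordinate sum
`d`, and if `u, v ∈ B` and `u_p > v_p` then there is `q` with `u_q < v_q` and
`u - e_p + e_q ∈ B`. (Having the same degree, these monomials are the minimal monomial generators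
of `I`, and `B` is finite.) -/
def IsPolymatroidal {n : ℕ} {K : Type u} [Field K] (I : Ideal (MvPolynomial (Fin n) K)) : Prop :=
  ∃ (B : Set (Fin n →₀ ℕ)) (d : ℕ), B.Nonempty ∧ (∀ u ∈ B, ∑ x, u x = d) ∧
    (∀ u ∈ B, ∀ v ∈ B, ∀ p, v p < u p →
      ∃ q, u q < v q ∧ u - Finsupp.single p 1 + Finsupp.single q 1 ∈ B) ∧
    I = Ideal.span ((fun u => monomial u (1 : K)) '' B)

/-- The `k`-th symbolic power `I^(k) = ⋂_{P ∈ Ass(I)} (I^k S_P ∩ S)`, where `Ass(I)` is the set of
all associated primes of `I` (of `S/I`). -/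
noncomputable def symbolicPower {S : Type u} [CommRing S] (I : Ideal S) (k : ℕ) : Ideal S :=
  ⨅ P : Submodule.associatedPrimes I,
    ((I ^ k).map (algebraMap S (Localization.AtPrime P.1))).comap
      (algebraMap S (Localization.AtPrime P.1))

/-- `J_⟨j⟩`: the ideal generated by the homogeneous elements of `J` of degree `j`. -/
noncomputable def component {n : ℕ} {K : Type u} [Field K] (J : Ideal (MvPolynomial (Fin n) K))
    (j : ℕ) : Ideal (MvPolynomial (Fin n) K) :=
  Ideal.span {f | f ∈ J ∧ f.IsHomogeneous j}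

/-- The ideal `J` has a `j`-linear resolution: there is an exact sequence
`⋯ → S^{b_2} → S^{b_1} → S^{b_0} → J → 0` where `S^{b_0} → J` sends the basis vectors to
homogeneous elements `g_k` of degree `j`, and all the entries of the matrices of the other maps `φ_i`
are linear forms (homogeneous of degree `1`; an entry can be `0`). -/
def HasLinearResolution {n : ℕ} {K : Type u} [Field K] (J : Ideal (MvPolynomial (Fin n) K))
    (j : ℕ) : Prop :=
  ∃ (b : ℕ → ℕ) (g : Fin (b 0) → MvPolynomial (Fin n) K)
    (φ : ∀ i, (Fin (b (i + 1)) → MvPolynomial (Fin n) K) →ₗ[MvPolynomial (Fin n) K]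
      (Fin (b i) → MvPolynomial (Fin n) K)),
    (∀ k, (g k).IsHomogeneous j) ∧ Ideal.span (Set.range g) = J ∧
    (∀ i k l, (φ i (Pi.single k 1) l).IsHomogeneous 1) ∧
    (∀ v, ∑ k, v k * g k = 0 ↔ v ∈ LinearMap.range (φ 0)) ∧
    ∀ i, Function.Exact (φ (i + 1)) (φ i)

/-- `J` is componentwise linear: `J_⟨j⟩` has a linear resolution for every `j`. -/
def IsComponentwiseLinear {n : ℕ} {K : Type u} [Field K] (J : Ideal (MvPolynomial (Fin n) K)) :
    Prop :=
  ∀ j, HasLinearResolution (component J j) j

/-! ### The matroid of `K_4` -/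

/-- the spanning trees of `K_4`; the edges are `0 = 12, 1 = 13, 2 = 14, 3 = 23, 4 = 24, 5 = 34` -/
def trees : Finset (Finset (Fin 6)) :=
  (univ.powersetCard 3).filter (fun T => T ≠ {0, 1, 3} ∧ T ≠ {0, 2, 4} ∧ T ≠ {1, 2, 5} ∧
    T ≠ {3, 4, 5})

/-- the cocircuits (bonds) of `K_4` -/
def bonds : Finset (Finset (Fin 6)) :=
  {{0, 1, 2}, {0, 3, 4}, {1, 3, 5}, {2, 4, 5}, {0, 1, 4, 5}, {0, 2, 3, 5}, {1, 2, 3, 4}}

/-- the three Hamiltonian cycles -/
def cyc : Fin 3 → Finset (Fin 6) := ![{1, 2, 3, 4}, {0, 2, 3, 5}, {0, 1, 4, 5}]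

theorem bonds_char : ∀ A D : Finset (Fin 6), (∀ T ∈ trees, ¬ T ⊆ A) →
    (∀ T ∈ trees, ¬ Disjoint D T) → (∀ e ∈ D, ∃ T ∈ trees, T ⊆ insert e A) → D ∈ bonds := by
  decide +kernel

theorem bonds_hit : ∀ C ∈ bonds, ∀ T ∈ trees, ¬ Disjoint C T := by decide +kernel

theorem bonds_min : ∀ C ∈ bonds, ∀ e ∈ C, ∃ T ∈ trees, T ⊆ insert e Cᶜ := by decide +kernel

theorem bonds_two : ∀ D ∈ bonds, ∀ j, ∃ T ∈ trees, ∃ T' ∈ trees, ∀ e,
    (if e ∈ T then 1 else 0) + (if e ∈ T' then 1 else 0) ≤
      (if e ∉ D then 2 else 0) + (if e ∈ cyc j then 1 else 0) := by decide +kernel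

theorem trees_exch : ∀ T ∈ trees, ∀ T' ∈ trees, ∀ p ∈ T, p ∉ T' →
    ∃ q ∈ T', q ∉ T ∧ insert q (T.erase p) ∈ trees := by decide +kernel

theorem trees_card : ∀ T ∈ trees, T.card = 3 := by decide +kernel

/-- indicator vector -/
noncomputable def ind (T : Finset (Fin 6)) : Fin 6 →₀ ℕ :=
  Finsupp.equivFunOnFinite.symm (fun v => if v ∈ T then 1 else 0)

@[simp] theorem ind_apply (T : Finset (Fin 6)) (v : Fin 6) : ind T v = if v ∈ T then 1 else 0 := rfl

theorem sum_ind (T : Finset (Fin 6)) : ∑ x, ind T x = T.card := by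
  simp

variable (K : Type u) [Field K]

/-- the ideal of the spanning trees of `K_4` -/
noncomputable def treeIdeal : Ideal (MvPolynomial (Fin 6) K) :=
  Ideal.span ((fun u => monomial u (1 : K)) '' {u | ∃ T ∈ trees, u = ind T})

theorem treeIdeal_poly : IsPolymatroidal (treeIdeal K) := by
  refine ⟨{u | ∃ T ∈ trees, u = ind T}, 3, ⟨ind {0, 1, 2}, {0, 1, 2}, by decide +kernel, rfl⟩, ?_,
    ?_, rfl⟩
  · rintro _ ⟨T, hT, rfl⟩
    rw [sum_ind, trees_card T hT]
  · rintro _ ⟨T, hT, rfl⟩ _ ⟨T', hT', rfl⟩ p hp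
    simp only [ind_apply] at hp
    have h1 : p ∈ T := by
      by_contra h
      simp [h] at hp
    have h2 : p ∉ T' := by
      intro h
      simp [h, h1] at hp
    obtain ⟨q, hq, hqT, h⟩ := trees_exch T hT T' hT' p h1 h2
    refine ⟨q, by simp [hq, hqT], _, h, ?_⟩
    ext e
    simp only [Finsupp.add_apply, Finsupp.tsub_apply, ind_apply, Finsupp.single_apply,
      Finset.mem_insert, Finset.mem_erase]
    have hpq : p ≠ q := by rintro rfl; exact hqT h1
    by_cases e1 : e = q
    · subst e1
      simp [hqT]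
    · by_cases e2 : e = p
      · subst e2
        simp [h1, Ne.symm hpq, e1]
      · simp [e1, e2, Ne.symm e1, Ne.symm e2]

variable {K}

theorem mem_treeIdeal {f : MvPolynomial (Fin 6) K} :
    f ∈ treeIdeal K ↔ ∀ a ∈ f.support, ∃ T ∈ trees, ind T ≤ a := by
  rw [treeIdeal, mem_ideal_span_monomial_image]
  constructor
  · intro h a ha
    obtain ⟨_, ⟨T, hT, rfl⟩, h2⟩ := h a ha
    exact ⟨T, hT, h2⟩
  · intro h a ha
    obtain ⟨T, hT, h2⟩ := h a ha
    exact ⟨_, ⟨T, hT, rfl⟩, h2⟩

theorem monomial_mem {T : Finset (Fin 6)} (hT : T ∈ trees) :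
    monomial (ind T) (1 : K) ∈ treeIdeal K :=
  Ideal.subset_span ⟨_, ⟨T, hT, rfl⟩, rfl⟩

/-! ### The primes `P_C` -/

/-- the substitution `x_e ↦ t x_e` for `e ∈ C`, `x_e ↦ x_e` for `e ∉ C` -/
noncomputable def phi (K : Type u) [Field K] (C : Finset (Fin 6)) :
    MvPolynomial (Fin 6) K →+* Polynomial (MvPolynomial (Fin 6) K) :=
  eval₂Hom (Polynomial.C.comp MvPolynomial.C)
    (fun e => if e ∈ C then Polynomial.X * Polynomial.C (X e) else Polynomial.C (X e))

theorem phi_monomial (C : Finset (Fin 6)) (a : Fin 6 →₀ ℕ) (c : K) :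
    phi K C (monomial a c) = Polynomial.X ^ (∑ e ∈ C, a e) * Polynomial.C (monomial a c) := by
  rw [phi, eval₂Hom_monomial, Finsupp.prod_fintype _ _ (by simp)]
  have h1 : ∀ e, (if e ∈ C then Polynomial.X * Polynomial.C (X e) else
      Polynomial.C (X e : MvPolynomial (Fin 6) K)) ^ a e =
      (if e ∈ C then Polynomial.X ^ a e else 1) * Polynomial.C (X e ^ a e) := by
    intro e
    split_ifs
    · rw [mul_pow, map_pow]
    · rw [one_mul, map_pow]
  simp only [h1, Finset.prod_mul_distrib]
  rw [monomial_eq, Finsupp.prod_fintype _ _ (by simp), Finset.prod_ite_mem, Finset.univ_inter,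
    Finset.prod_pow_eq_pow_sum, map_mul, map_prod]
  simp only [RingHom.comp_apply]
  ring

theorem coeff_phi (C : Finset (Fin 6)) (f : MvPolynomial (Fin 6) K) (m : ℕ) (a : Fin 6 →₀ ℕ) :
    ((phi K C f).coeff m).coeff a = if ∑ e ∈ C, a e = m then f.coeff a else 0 := by
  induction f using MvPolynomial.induction_on' with
  | monomial b c =>
    rw [phi_monomial, mul_comm, Polynomial.coeff_C_mul_X_pow]
    by_cases h1 : b = a
    · subst h1
      by_cases h2 : m = ∑ e ∈ C, b e
      · rw [if_pos h2, if_pos h2.symm]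
      · rw [if_neg h2, if_neg (fun h => h2 h.symm), coeff_zero]
    · have : (monomial b c : MvPolynomial (Fin 6) K).coeff a = 0 := by
        rw [coeff_monomial, if_neg h1]
      rw [this, ite_self]
      split_ifs
      · exact this
      · exact coeff_zero _
  | add p q hp hq =>
    rw [map_add, Polynomial.coeff_add, coeff_add, hp, hq, coeff_add]
    split_ifs <;> simp

theorem dvd_phi (C : Finset (Fin 6)) (f : MvPolynomial (Fin 6) K) (k : ℕ) :
    Polynomial.X ^ k ∣ phi K C f ↔ ∀ a ∈ f.support, k ≤ ∑ e ∈ C, a e := by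
  rw [Polynomial.X_pow_dvd_iff]
  constructor
  · intro h a ha
    by_contra hlt
    have := coeff_phi C f (∑ e ∈ C, a e) a
    rw [h _ (not_le.mp hlt), if_pos rfl, coeff_zero] at this
    exact (mem_support_iff.mp ha) this.symm
  · intro h d hd
    ext a
    rw [coeff_phi, coeff_zero]
    split_ifs with h1
    · by_contra h2
      have := h a (mem_support_iff.mpr h2)
      omega
    · rfl

/-- the prime `(x_e : e ∈ C)` -/
noncomputable def prm (K : Type u) [Field K] (C : Finset (Fin 6)) :
    Ideal (MvPolynomial (Fin 6) K) :=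
  (Ideal.span {Polynomial.X}).comap (phi K C)

theorem mem_prm {C : Finset (Fin 6)} {f : MvPolynomial (Fin 6) K} :
    f ∈ prm K C ↔ Polynomial.X ∣ phi K C f := by
  rw [prm, Ideal.mem_comap, Ideal.mem_span_singleton]

theorem prm_prime (C : Finset (Fin 6)) : (prm K C).IsPrime := by
  have : (Ideal.span {(Polynomial.X : Polynomial (MvPolynomial (Fin 6) K))}).IsPrime :=
    (Ideal.span_singleton_prime Polynomial.X_ne_zero).mpr Polynomial.prime_X
  exact Ideal.IsPrime.comap _

theorem prm_ass {C : Finset (Fin 6)} (hC : C ∈ bonds) :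
    prm K C ∈ Submodule.associatedPrimes (treeIdeal K) := by
  rw [Submodule.AssociatePrimes.mem_iff, Submodule.isAssociatedPrime_iff]
  refine ⟨prm_prime C, monomial (ind Cᶜ) 1, ?_⟩
  ext f
  rw [mem_prm, Submodule.mem_colon_singleton, smul_eq_mul, mem_treeIdeal]
  have := dvd_phi C f 1
  rw [pow_one] at this
  rw [this]
  constructor
  · intro h a ha
    have ha' := mem_support_iff.mp ha
    rw [coeff_mul_monomial'] at ha'
    split_ifs at ha' with h1
    · rw [mul_one] at ha'
      have h2 := h _ (mem_support_iff.mpr ha')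
      obtain ⟨e, he, h3⟩ : ∃ e ∈ C, (a - ind Cᶜ) e ≠ 0 := by
        by_contra hcon
        push Not at hcon
        rw [Finset.sum_eq_zero hcon] at h2
        omega
      obtain ⟨T, hT, h4⟩ := bonds_min C hC e he
      refine ⟨T, hT, fun v => ?_⟩
      rw [ind_apply]
      split_ifs with h5
      · rcases Finset.mem_insert.mp (h4 h5) with h6 | h6
        · subst h6
          rw [Finsupp.tsub_apply] at h3
          omega
        · have := h1 v
          rw [ind_apply, if_pos h6] at this
          exact this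
      · exact Nat.zero_le _
    · exact absurd rfl ha'
  · intro h a ha
    have h1 : (f * monomial (ind Cᶜ) 1).coeff (a + ind Cᶜ) = f.coeff a := by
      rw [coeff_mul_monomial, mul_one]
    obtain ⟨T, hT, h2⟩ := h (a + ind Cᶜ) (by
      rw [mem_support_iff, h1]
      exact mem_support_iff.mp ha)
    obtain ⟨e, he, heT⟩ := Finset.not_disjoint_iff.mp (bonds_hit C hC T hT)
    have h3 := h2 e
    rw [ind_apply, if_pos heT, Finsupp.add_apply, ind_apply, if_neg (by simpa using he)] at h3
    exact le_trans (by omega) (Finset.single_le_sum (f := fun e => a e) (fun _ _ => Nat.zero_le _) he)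

/-! ### The second symbolic power in degree `4` -/

theorem sym_le {f : MvPolynomial (Fin 6) K} (hf : f ∈ symbolicPower (treeIdeal K) 2)
    {C : Finset (Fin 6)} (hC : C ∈ bonds) : ∀ a ∈ f.support, 2 ≤ ∑ e ∈ C, a e := by
  rw [← dvd_phi]
  have := prm_prime (K := K) C
  have h1 := (Submodule.mem_iInf _).mp hf ⟨prm K C, prm_ass hC⟩
  rw [Ideal.mem_comap, IsLocalization.algebraMap_mem_map_algebraMap_iff
    (M := (prm K C).primeCompl)] at h1
  obtain ⟨s, hs, h2⟩ := h1
  have h3 : treeIdeal K ≤ (Ideal.span {Polynomial.X}).comap (phi K C) := by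
    intro g hg
    change g ∈ prm K C
    rw [mem_prm]
    have := dvd_phi C g 1
    rw [pow_one] at this
    rw [this]
    intro a ha
    obtain ⟨T, hT, h4⟩ := mem_treeIdeal.mp hg a ha
    obtain ⟨e, he, heT⟩ := Finset.not_disjoint_iff.mp (bonds_hit C hC T hT)
    have h5 := h4 e
    rw [ind_apply, if_pos heT] at h5
    exact le_trans h5 (Finset.single_le_sum (f := fun e => a e) (fun _ _ => Nat.zero_le _) he)
  have h4 : treeIdeal K ^ 2 ≤ (Ideal.span {Polynomial.X ^ 2}).comap (phi K C) := by
    rw [← Ideal.span_singleton_pow]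
    exact (Ideal.pow_right_mono h3 2).trans (Ideal.le_comap_pow _ 2)
  have h5 := h4 h2
  rw [Ideal.mem_comap, Ideal.mem_span_singleton, map_mul] at h5
  refine Polynomial.prime_X.pow_dvd_of_dvd_mul_left 2 ?_ h5
  intro h6
  exact hs (mem_prm.mpr h6)

theorem cyc_mem (j : Fin 3) :
    monomial (ind (cyc j)) (1 : K) ∈ symbolicPower (treeIdeal K) 2 := by
  classical
  rw [symbolicPower, Submodule.mem_iInf]
  rintro ⟨P, hP⟩
  have hP' := hP
  rw [Submodule.AssociatePrimes.mem_iff, Submodule.isAssociatedPrime_iff] at hP'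
  obtain ⟨hprime, x, hx⟩ := hP'
  rw [Ideal.mem_comap, IsLocalization.algebraMap_mem_map_algebraMap_iff (M := P.primeCompl)]
  have hIP : treeIdeal K ≤ P := by
    intro g hg
    rw [hx, Submodule.mem_colon_singleton, smul_eq_mul]
    exact Ideal.mul_mem_right _ _ hg
  have hxI : x ∉ treeIdeal K := by
    intro h
    apply hprime.ne_top
    rw [Ideal.eq_top_iff_one, hx, Submodule.mem_colon_singleton, one_smul]
    exact h
  rw [mem_treeIdeal] at hxI
  push Not at hxI
  obtain ⟨a, ha, hna⟩ := hxI
  have hD : (univ.filter (fun e => (X e : MvPolynomial (Fin 6) K) ∈ P)) ∈ bonds := by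
    refine bonds_char (univ.filter (fun e => a e ≠ 0)) _ ?_ ?_ ?_
    · intro T hT hTA
      apply hna T hT
      intro e
      rw [ind_apply]
      split_ifs with h
      · have := (Finset.mem_filter.mp (hTA h)).2
        omega
      · exact Nat.zero_le _
    · intro T hT hdis
      have h1 : monomial (ind T) (1 : K) = ∏ e ∈ T, X e := by
        rw [monomial_eq, C_1, one_mul, Finsupp.prod_fintype _ _ (by simp)]
        rw [← Finset.prod_subset (Finset.subset_univ T)]
        · refine Finset.prod_congr rfl fun e he => ?_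
          rw [ind_apply, if_pos he, pow_one]
        · intro e _ he
          rw [ind_apply, if_neg he, pow_zero]
      have h2 := hIP (monomial_mem (K := K) hT)
      rw [h1, hprime.prod_mem_iff] at h2
      obtain ⟨e, he, h3⟩ := h2
      exact Finset.disjoint_left.mp hdis (Finset.mem_filter.mpr ⟨Finset.mem_univ _, h3⟩) he
    · intro e he
      have h1 := (Finset.mem_filter.mp he).2
      rw [hx, Submodule.mem_colon_singleton, smul_eq_mul, mem_treeIdeal] at h1
      obtain ⟨T, hT, h2⟩ := h1 (Finsupp.single e 1 + a) (by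
        rw [mem_support_iff, X, coeff_monomial_mul, one_mul]
        exact mem_support_iff.mp ha)
      refine ⟨T, hT, fun v hv => ?_⟩
      have h3 := h2 v
      rw [ind_apply, if_pos hv, Finsupp.add_apply, Finsupp.single_apply] at h3
      by_cases h4 : e = v
      · subst h4
        exact Finset.mem_insert_self _ _
      · rw [if_neg h4] at h3
        exact Finset.mem_insert_of_mem (Finset.mem_filter.mpr ⟨Finset.mem_univ _, by omega⟩)
  set D := univ.filter (fun e => (X e : MvPolynomial (Fin 6) K) ∈ P) with hDdef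
  refine ⟨∏ e ∈ univ.filter (fun e => e ∉ D), X e ^ 2, ?_, ?_⟩
  · rw [Ideal.mem_primeCompl_iff, hprime.prod_mem_iff]
    rintro ⟨e, he, h1⟩
    exact (Finset.mem_filter.mp he).2
      (Finset.mem_filter.mpr ⟨Finset.mem_univ _, hprime.mem_of_pow_mem 2 h1⟩)
  · obtain ⟨T, hT, T', hT', h1⟩ := bonds_two D hD j
    have h2 : (∏ e ∈ univ.filter (fun e => e ∉ D), X e ^ 2 : MvPolynomial (Fin 6) K) =
        monomial (Finsupp.equivFunOnFinite.symm (fun e => if e ∉ D then 2 else 0)) 1 := by
      rw [monomial_eq, C_1, one_mul, Finsupp.prod_fintype _ _ (by simp), Finset.prod_filter]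
      refine Finset.prod_congr rfl fun e _ => ?_
      simp only [Finsupp.coe_equivFunOnFinite_symm]
      split_ifs <;> simp
    obtain ⟨c, hc⟩ : ∃ c, Finsupp.equivFunOnFinite.symm (fun e => if e ∉ D then 2 else 0) +
        ind (cyc j) = (ind T + ind T') + c := by
      refine exists_add_of_le fun e => ?_
      have := h1 e
      simp only [Finsupp.add_apply, ind_apply, Finsupp.coe_equivFunOnFinite_symm]
      exact this
    rw [h2, monomial_mul, hc, one_mul]
    have h3 : monomial (ind T + ind T' + c) (1 : K) =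
        monomial (ind T) 1 * monomial (ind T') 1 * monomial c 1 := by
      rw [monomial_mul, monomial_mul]
      simp
    rw [h3, pow_two]
    exact Ideal.mul_mem_right _ _ (Ideal.mul_mem_mul (monomial_mem hT) (monomial_mem hT'))

theorem support_deg4 {f : MvPolynomial (Fin 6) K} (hf : f ∈ symbolicPower (treeIdeal K) 2)
    (hh : f.IsHomogeneous 4) : ∀ a ∈ f.support, ∃ j, a = ind (cyc j) := by
  intro a ha
  have hs : ∑ e, a e = 4 := by
    have := hh (mem_support_iff.mp ha)
    rw [Finsupp.weight_apply, Finsupp.sum_fintype _ _ (by simp)] at this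
    simpa using this
  have c1 := sym_le hf (C := {0, 1, 2}) (by decide) a ha
  have c2 := sym_le hf (C := {0, 3, 4}) (by decide) a ha
  have c3 := sym_le hf (C := {1, 3, 5}) (by decide) a ha
  have c4 := sym_le hf (C := {2, 4, 5}) (by decide) a ha
  have c5 := sym_le hf (C := {0, 1, 4, 5}) (by decide) a ha
  have c6 := sym_le hf (C := {0, 2, 3, 5}) (by decide) a ha
  have c7 := sym_le hf (C := {1, 2, 3, 4}) (by decide) a ha
  simp only [Fin.sum_univ_six] at hs
  rw [Finset.sum_insert (by decide), Finset.sum_insert (by decide), Finset.sum_singleton] at c1 c2 c3 c4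
  rw [Finset.sum_insert (by decide), Finset.sum_insert (by decide), Finset.sum_insert (by decide),
    Finset.sum_singleton] at c5 c6 c7
  have key : (a 0 = 0 ∧ a 1 = 1 ∧ a 2 = 1 ∧ a 3 = 1 ∧ a 4 = 1 ∧ a 5 = 0) ∨
      (a 0 = 1 ∧ a 1 = 0 ∧ a 2 = 1 ∧ a 3 = 1 ∧ a 4 = 0 ∧ a 5 = 1) ∨
      (a 0 = 1 ∧ a 1 = 1 ∧ a 2 = 0 ∧ a 3 = 0 ∧ a 4 = 1 ∧ a 5 = 1) := by omega
  rcases key with h | h | h
  · refine ⟨0, ?_⟩
    ext v
    rw [ind_apply]
    fin_cases v <;> simp [cyc, h]
  · refine ⟨1, ?_⟩
    ext v
    rw [ind_apply]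
    fin_cases v <;> simp [cyc, h]
  · refine ⟨2, ?_⟩
    ext v
    rw [ind_apply]
    fin_cases v <;> simp [cyc, h]

theorem ind_cyc_inj {i j : Fin 3} (h : ind (cyc i) ≤ ind (cyc j)) : i = j := by
  have h1 : cyc i ⊆ cyc j := by
    intro e he
    have := h e
    rw [ind_apply, if_pos he, ind_apply] at this
    by_contra h2
    rw [if_neg h2] at this
    omega
  exact (show ∀ i j : Fin 3, cyc i ⊆ cyc j → i = j by decide +kernel) i j h1

theorem ind_cyc_single {i j : Fin 3} {e : Fin 6}
    (h : ind (cyc i) ≤ Finsupp.single e 1 + ind (cyc j)) : i = j := by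
  have h1 : cyc i ⊆ insert e (cyc j) := by
    intro v hv
    have := h v
    rw [ind_apply, if_pos hv, Finsupp.add_apply, ind_apply, Finsupp.single_apply] at this
    by_contra h2
    rw [Finset.mem_insert, not_or] at h2
    rw [if_neg h2.2, if_neg (fun h3 => h2.1 h3.symm)] at this
    omega
  exact (show ∀ (i j : Fin 3) (e : Fin 6), cyc i ⊆ insert e (cyc j) → i = j by
    decide +kernel) i j e h1

/-- coefficient extraction from `∑_j L_j m_j` -/
theorem coeff_comb (L : Fin 3 → MvPolynomial (Fin 6) K) (b : Fin 6 →₀ ℕ)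
    (hb : ∀ j, j ≠ 0 → ¬ ind (cyc j) ≤ b + ind (cyc 0)) :
    (∑ j, L j * monomial (ind (cyc j)) 1).coeff (b + ind (cyc 0)) = (L 0).coeff b := by
  rw [MvPolynomial.coeff_sum, Finset.sum_eq_single 0]
  · rw [coeff_mul_monomial, mul_one]
  · intro j _ hj
    rw [coeff_mul_monomial', if_neg (hb j hj)]
  · intro h
    exact absurd (Finset.mem_univ _) h

theorem not_linear : ¬ HasLinearResolution (component (symbolicPower (treeIdeal K) 2) 4) 4 := by
  classical
  rintro ⟨b, g, φ, hg, hspan, hlin, hex0, -⟩
  -- the generators are combinations of the three monomials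
  have hgJ : ∀ k, g k ∈ symbolicPower (treeIdeal K) 2 := by
    intro k
    have h1 : g k ∈ component (symbolicPower (treeIdeal K) 2) 4 := by
      rw [← hspan]
      exact Ideal.subset_span ⟨k, rfl⟩
    have h2 : component (symbolicPower (treeIdeal K) 2) 4 ≤ symbolicPower (treeIdeal K) 2 :=
      Ideal.span_le.mpr (fun f hf => hf.1)
    exact h2 h1
  have hgs : ∀ k, g k = ∑ j, C ((g k).coeff (ind (cyc j))) * monomial (ind (cyc j)) 1 := by
    intro k
    ext a
    rw [MvPolynomial.coeff_sum]
    simp only [coeff_C_mul, coeff_monomial]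
    by_cases h : ∃ j, a = ind (cyc j)
    · obtain ⟨j, rfl⟩ := h
      rw [Finset.sum_eq_single j]
      · simp
      · intro i _ hij
        rw [if_neg, mul_zero]
        intro h
        exact hij (ind_cyc_inj (le_of_eq h))
      · intro h
        exact absurd (Finset.mem_univ _) h
    · have h1 : (g k).coeff a = 0 := by
        by_contra h2
        exact h (support_deg4 (hgJ k) (hg k) a (mem_support_iff.mpr h2))
      rw [h1]
      symm
      apply Finset.sum_eq_zero
      intro j _
      rw [if_neg, mul_zero]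
      intro h2
      exact h ⟨j, h2.symm⟩
  have hsum : ∀ v : Fin (b 0) → MvPolynomial (Fin 6) K, ∑ k, v k * g k =
      ∑ j, (∑ k, C ((g k).coeff (ind (cyc j))) * v k) * monomial (ind (cyc j)) 1 := by
    intro v
    simp only [Finset.sum_mul]
    rw [Finset.sum_comm]
    refine Finset.sum_congr rfl fun k _ => ?_
    conv_lhs => rw [hgs k]
    rw [Finset.mul_sum]
    refine Finset.sum_congr rfl fun j _ => ?_
    ring
  -- the functional killing all linear syzygies
  let lam : (Fin (b 0) → MvPolynomial (Fin 6) K) →ₗ[MvPolynomial (Fin 6) K]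
      MvPolynomial (Fin 6) K :=
    ∑ k, (C ((g k).coeff (ind (cyc 0))) : MvPolynomial (Fin 6) K) • LinearMap.proj k
  have hlam : ∀ v, lam v = ∑ k, C ((g k).coeff (ind (cyc 0))) * v k := by
    intro v
    simp [lam]
  have hzero : lam ∘ₗ φ 0 = 0 := by
    refine LinearMap.pi_ext' fun k => ?_
    refine LinearMap.ext_ring ?_
    rw [LinearMap.comp_apply, LinearMap.comp_apply, LinearMap.single_apply, LinearMap.comp_apply,
      LinearMap.zero_apply]
    have h1 := (hex0 (φ 0 (Pi.single k 1))).mpr ⟨_, rfl⟩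
    rw [hsum] at h1
    have h2 : (lam (φ 0 (Pi.single k 1))).IsHomogeneous 1 := by
      rw [hlam]
      refine IsHomogeneous.sum _ _ _ fun l _ => ?_
      have h2 := (isHomogeneous_C (Fin 6) ((g l).coeff (ind (cyc 0)))).mul (hlin 0 k l)
      exact h2
    ext a
    rw [coeff_zero]
    by_contra h3
    have h4 := h2 h3
    have h5 : ∃ e, a = Finsupp.single e 1 := by
      rw [Finsupp.weight_apply, Finsupp.sum_fintype _ _ (by simp)] at h4
      simp only [Pi.one_apply, smul_eq_mul, mul_one] at h4
      obtain ⟨e, he⟩ : ∃ e, a e ≠ 0 := by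
        by_contra hcon
        push Not at hcon
        rw [Finset.sum_eq_zero (fun e _ => hcon e)] at h4
        omega
      refine ⟨e, ?_⟩
      have h6 := Finset.add_sum_erase univ (fun v => a v) (Finset.mem_univ e)
      have h7 : ∑ v ∈ univ.erase e, a v = 0 := by omega
      have h8 := Finset.sum_eq_zero_iff.mp h7
      ext v
      rw [Finsupp.single_apply]
      split_ifs with h9
      · subst h9
        omega
      · exact h8 v (Finset.mem_erase.mpr ⟨fun h => h9 h.symm, Finset.mem_univ _⟩)
    obtain ⟨e, rfl⟩ := h5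
    apply h3
    have h6 := coeff_comb (fun j => ∑ l, C ((g l).coeff (ind (cyc j))) * φ 0 (Pi.single k 1) l)
      (Finsupp.single e 1) (fun j hj h => hj (ind_cyc_single h))
    rw [h1, coeff_zero] at h6
    rw [hlam]
    exact h6.symm
  -- the two monomials
  have hm : ∀ j, ∃ p : Fin (b 0) → MvPolynomial (Fin 6) K,
      ∑ k, p k * g k = monomial (ind (cyc j)) 1 := by
    intro j
    have h1 : monomial (ind (cyc j)) (1 : K) ∈ component (symbolicPower (treeIdeal K) 2) 4 := by
      refine Ideal.subset_span ⟨cyc_mem j, ?_⟩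
      apply isHomogeneous_monomial
      rw [Finsupp.degree_eq_sum, sum_ind]
      revert j
      decide
    rw [← hspan] at h1
    exact Ideal.mem_span_range_iff_exists_fun.mp h1
  obtain ⟨p, hp⟩ := hm 0
  obtain ⟨q, hq⟩ := hm 1
  have hadd : ind (cyc 1 \ cyc 0) + ind (cyc 0) = ind (cyc 0 \ cyc 1) + ind (cyc 1) := by
    ext v
    simp only [Finsupp.add_apply, ind_apply]
    revert v
    decide +kernel
  have hker := (hex0 ((monomial (ind (cyc 1 \ cyc 0)) 1 : MvPolynomial (Fin 6) K) • p -
    (monomial (ind (cyc 0 \ cyc 1)) 1 : MvPolynomial (Fin 6) K) • q)).mp (by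
      simp only [Pi.sub_apply, Pi.smul_apply, smul_eq_mul, sub_mul, mul_assoc,
        Finset.sum_sub_distrib, ← Finset.mul_sum]
      rw [hp, hq, monomial_mul, monomial_mul, hadd, sub_self])
  obtain ⟨w, hw⟩ := hker
  have h1 : lam (φ 0 w) = 0 := by
    rw [← LinearMap.comp_apply, hzero, LinearMap.zero_apply]
  rw [hw, map_sub, map_smul, map_smul, smul_eq_mul, smul_eq_mul] at h1
  have h2 : (lam p).coeff 0 = 1 := by
    rw [hsum] at hp
    have h3 := coeff_comb (fun j => ∑ l, C ((g l).coeff (ind (cyc j))) * p l) 0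
      (fun j hj h => hj (ind_cyc_inj (by simpa using h)))
    rw [hp, zero_add, coeff_monomial, if_pos rfl] at h3
    rw [hlam]
    exact h3.symm
  have h3 := congrArg (fun f => f.coeff (ind (cyc 1 \ cyc 0))) h1
  simp only [coeff_sub, coeff_zero] at h3
  rw [coeff_monomial_mul', coeff_monomial_mul', if_pos le_rfl, tsub_self, h2, if_neg, one_mul,
    sub_zero] at h3
  · exact one_ne_zero h3
  · intro h
    have := h 1
    revert this
    simp only [ind_apply]
    decide +kernel

/-- For every field `K` there is a polymatroidal ideal `I` of `K[x_1, …, x_6]` (even a matroidal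
one, generated in degree `3`) such that the symbolic square `I^(2)` is not componentwise linear. -/
theorem result : ∀ (K : Type u) [Field K], ∃ I : Ideal (MvPolynomial (Fin 6) K),
    IsPolymatroidal I ∧ ¬ IsComponentwiseLinear (symbolicPower I 2) :=
  fun K _ => ⟨treeIdeal K, treeIdeal_poly K, fun h => not_linear (h 4)⟩

end Pool.Agent.Results.MP_d6f7e8_al.CompleteGraph
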